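import Pool.Agent.Helper91.IP.St.Stubs

/-!
# Project IP, piece C3b: decomposition of a pure level
-/

namespace Pool.Agent.Helper71.IP

open Finset Equiv Matrix Pool.Agent.Helper91.IP

variable {V : Type} [Fintype V] [DecidableEq V]

/-- IP-C3b (uses C3a and E4) -/
theorem level_decomp (j : ℕ) (hj : 1 ≤ j) {f : Perm V → ℝ} (hf : f ∈ Vl V j)
    (ho : Orth f (Vl V (j - 1))) :
    f ∈ ⨆ S : {S : Finset V // S.card = j}, (Fs (S : Finset V) ⊓ Oc (Vl V (j - 1))) := by
  classical
  obtain ⟨P, hPs, -, hPU, hPid, -, hcomm⟩ := exists_proj (Vl V (j - 1))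
  -- symmetry of `P` in terms of the inner product
  have hsym : ∀ u v : Perm V → ℝ, (P *ᵥ u) ⬝ᵥ v = u ⬝ᵥ (P *ᵥ v) := by
    intro u v
    rw [Matrix.dotProduct_mulVec, ← Matrix.mulVec_transpose, hPs.eq]
  -- `1 - P` maps the right way
  have key : ∀ u ∈ Vl V j, u - P *ᵥ u ∈
      ⨆ S : {S : Finset V // S.card = j}, (Fs (S : Finset V) ⊓ Oc (Vl V (j - 1))) := by
    intro u hu
    have hle : Vl V j ≤ Submodule.comap (Matrix.mulVecLin (1 - P))
        (⨆ S : {S : Finset V // S.card = j}, (Fs (S : Finset V) ⊓ Oc (Vl V (j - 1)))) := by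
      refine iSup_le ?_
      rintro ⟨S, hS⟩ v hv
      have hv' : v ∈ Fs S := hv
      rw [Submodule.mem_comap, Matrix.mulVecLin_apply, Matrix.sub_mulVec, Matrix.one_mulVec]
      rcases Nat.lt_or_ge S.card j with hlt | hge
      · have hmem : v ∈ Vl V (j - 1) := by
          have : Fs S ≤ Vl V (j - 1) :=
            le_iSup (fun S : {S : Finset V // S.card ≤ j - 1} => Fs (S : Finset V))
              ⟨S, by omega⟩
          exact this hv'
        rw [hPid v hmem, sub_self]
        exact Submodule.zero_mem _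
      · have hcard : S.card = j := le_antisymm hS hge
        have hc : PF S * P = P * PF S := by
          apply hcomm
          · intro w hw; exact PF_Vl S (j - 1) hw
          · intro w hw; rw [(PF_isSymm S).eq]; exact PF_Vl S (j - 1) hw
        refine (le_iSup (fun S : {S : Finset V // S.card = j} =>
          (Fs (S : Finset V) ⊓ Oc (Vl V (j - 1)))) ⟨S, hcard⟩) ?_
        refine Submodule.mem_inf.mpr ⟨?_, ?_⟩
        · have h1 : PF S *ᵥ (v - P *ᵥ v) = v - P *ᵥ v := by
            rw [Matrix.mulVec_sub, Matrix.mulVec_mulVec, hc, ← Matrix.mulVec_mulVec,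
              PF_of_mem S hv']
          have h2 := PF_mem S (v - P *ᵥ v)
          rw [h1] at h2
          exact h2
        · intro g hg
          have h3 : (v - P *ᵥ v) ⬝ᵥ g = 0 := by
            rw [sub_dotProduct, hsym, hPid g hg, sub_self]
          exact h3
    have := hle hu
    rwa [Submodule.mem_comap, Matrix.mulVecLin_apply, Matrix.sub_mulVec,
      Matrix.one_mulVec] at this
  have hzero : P *ᵥ f = 0 := by
    have h1 : f ⬝ᵥ (P *ᵥ f) = 0 := ho _ (hPU f)
    have h2 : (P *ᵥ f) ⬝ᵥ (P *ᵥ f) = 0 := by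
      rw [hsym, hPid _ (hPU f), h1]
    exact dotProduct_self_eq_zero.mp h2
  have := key f hf
  rwa [hzero, sub_zero] at this

end Pool.Agent.Helper71.IP
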